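import Pool.Agent.Q22.LF.Mean
import Pool.Agent.Q311.AR2
import Pool.Agent.W171.LG.CoreR

set_option autoImplicit false

/-! Few changes of digits: the law for a datum, and for Lenstra's problem. -/

namespace Pool.Agent.Q22.LF

open Finset Filter Topology NumberField
open Pool.Agent.H386R2.Artin (PP)
open Pool.Agent.H771R4.SE (Dat cntE)
open Pool.Agent.TH894.ND (mu)
open Pool.Agent.TH894.SM (change)
open Pool.Agent.W171.LG

open Classical in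
/-- The law for a datum and few changes of digits. -/
theorem few_dat (b : ℕ) (hb : 2 ≤ b) (A : ℕ) : ∃ c : ℝ, 0 < c ∧ ∀ d : Dat, ∀ ε : ℝ, 0 < ε →
    ∃ x₀ : ℕ, ∀ r K y : ℕ, 2 * r ≤ K → x₀ ≤ y →
    ∀ N : ℕ, N < b ^ K → ∀ f : ℕ → ℕ, (∀ j, f j < b ∧ f j ≠ N / b ^ j % b) →
    ∀ Ex ⊆ powersetCard r (range K), (∀ S ∈ Ex, ∃ x : ℕ, y ≤ x ∧ Real.log x ≤ c * r ∧
      ε * (Nat.primeCounting x : ℝ) <
        |(cntE d (change b K N f S) x : ℝ) - d.A * (Nat.primeCounting x : ℝ)|) →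
    (Ex.card : ℝ) ≤ (y : ℝ) ^ (-(A : ℝ)) * (K.choose r : ℝ) := by
  obtain ⟨c, hc, x₀, h⟩ := Pool.Agent.TH894.ND.uniform_law b hb (1 / 4) A 0 (by norm_num)
  refine ⟨c, hc, fun d ε hε => ?_⟩
  obtain ⟨x₁, hx₁⟩ := mean_dat d (ε / 4) (by positivity)
  obtain ⟨x₂, hx₂⟩ := Pool.Agent.Q311.AR.err_small (ε / 4) (by positivity)
  refine ⟨x₀ + x₁ + x₂ + 2, fun r K y hrK hy N hN f hf Ex hEx hExb => ?_⟩
  refine h r K y hrK (by omega) N hN f hf Unit (fun _ => {()}) ?_ (fun x _ => PP x) ?_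
    (fun _ p u => d.Q p u) Ex hEx ?_
  · intro x _
    rw [Real.rpow_zero]
    simp
  · intro x _ p hp
    exact ⟨(mem_PP.1 hp).2, (mem_PP.1 hp).1⟩
  · intro S hS
    obtain ⟨x, hyx, hxr, hbad⟩ := hExb S hS
    refine ⟨x, hyx, hxr, (), mem_singleton_self _, ?_⟩
    have k1 := hx₁ x (by omega)
    have k2 := hx₂ x (by omega)
    have hπ : (0 : ℝ) < (Nat.primeCounting x : ℝ) := by
      have h2 : 1 ≤ Nat.primeCounting x := by
        have h3 : Nat.primeCounting 2 ≤ Nat.primeCounting x := Nat.monotone_primeCounting (by omega)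
        have h4 : Nat.primeCounting 2 = 1 := by decide
        omega
      exact_mod_cast h2
    have e1 : (cntE d (change b K N f S) x : ℝ) =
        (((PP x).filter (fun p => d.Q p ((change b K N f S : ℕ) : ZMod p))).card : ℝ) := by
      unfold cntE PP
      rw [filter_filter]
    rw [e1] at hbad
    obtain ⟨a, ha⟩ : ∃ a, a = (((PP x).filter (fun p => d.Q p ((change b K N f S : ℕ) : ZMod p))).card : ℝ) := ⟨_, rfl⟩
    rw [← ha] at hbad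
    have e2 : (((PP x).filter (fun p => (fun (_ : Unit) (p : ℕ) (u : ZMod p) => d.Q p u) () p
        ((change b K N f S : ℕ) : ZMod p))).card : ℝ) = a := by
      rw [ha]
    have hgoal : Real.sqrt (PP x).card * (x : ℝ) ^ (1 / 4 : ℝ) < |a - ∑ p ∈ PP x, mu p (d.Q p)| := by
      have h5 : |a - d.A * (Nat.primeCounting x : ℝ)| ≤ |a - ∑ p ∈ PP x, mu p (d.Q p)| +
          |∑ p ∈ PP x, mu p (d.Q p) - d.A * (Nat.primeCounting x : ℝ)| := abs_sub_le _ _ _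
      have h6 : 0 < ε * (Nat.primeCounting x : ℝ) := by positivity
      linarith
    refine lt_of_lt_of_le hgoal (le_of_eq ?_)
    rw [ha]

section
variable (F : IntermediateField ℚ QA) [NumberField F] [IsGalois ℚ F] (C : Set Gal(F/ℚ))
  (W0 : Subgroup ℚˣ) (k : ℕ) (D : ℚˣ)

/-- the data of Lenstra's problem -/
theorem core2 (hC : ∀ σ ∈ C, ∀ τ : Gal(F/ℚ), τ * σ * τ⁻¹ ∈ C) (hW0 : W0.FG) (hk : k ≠ 0)
    {r : ℕ} (hr : 0 < r) (hrk : ∀ l : ℕ, l.Prime → l ∣ r → Pool.Agent.H981R3.LN.ql k l ∣ r) :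
    ∃ d : Dat, (∃ P1 : ℕ, ∀ n : ℕ, n ≠ 0 → ∀ x : ℕ,
        |(Sc F C (W0 ⊔ Subgroup.zpowers (DR D r n)) k x : ℝ) - cntE d n x| ≤ P1) ∧
      ∀ ε : ℝ, 0 < ε → ∃ P0 : ℕ, ∀ n : ℕ, n ≠ 0 → Gen P0 n →
        |(∑' e : ℕ, tW F C (W0 ⊔ Subgroup.zpowers (DR D r n)) k e) - d.A| ≤ ε := by
  classical
  have hRp : ∀ l ∈ r.primeFactors, l.Prime := fun l hl => Nat.prime_of_mem_primeFactors hl
  have hW1 : (W0 ⊔ Subgroup.zpowers D).FG := hW0.sup ⟨{D}, by simp [Subgroup.zpowers_eq_closure]⟩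
  obtain ⟨d, hdA, hdQ⟩ := dat_R F C W0 k D r hW0 hr hrk _
    (lim_lenR F C k r.primeFactors hC hW1 hW0 hRp)
  obtain ⟨P1, hP1⟩ := Sc_cntR F C W0 k D hW0 hk
  refine ⟨d, ⟨P1, fun n hn x => hP1 r hr.ne' d hdQ n hn x⟩, fun ε hε => ?_⟩
  obtain ⟨P0, hP0⟩ := closeR F C k hW0 D hr hrk ε hε
  exact ⟨P0, fun n hn hG => by rw [hdA]; exact hP0 n hn hG⟩

end

open Classical in
/-- Lenstra's problem and few changes of digits -/
theorem few_len (b : ℕ) (hb : 2 ≤ b) (A : ℕ) : ∃ c : ℝ, 0 < c ∧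
    ∀ (F : IntermediateField ℚ QA) [NumberField F] [IsGalois ℚ F] (C : Set Gal(F/ℚ))
      (W0 : Subgroup ℚˣ) (k : ℕ) (D : ℚˣ) (r : ℕ),
      (∀ σ ∈ C, ∀ τ : Gal(F/ℚ), τ * σ * τ⁻¹ ∈ C) → W0.FG → 0 < k → 0 < r →
      (∀ l : ℕ, l.Prime → l ∣ r → l ^ (k.factorization l + 1) ∣ r) →
      ∃ α : ℝ, (∀ ε : ℝ, 0 < ε → ∃ P0 : ℕ, ∀ n : ℕ, n ≠ 0 → Gen P0 n →
        |(∑' e : ℕ, tW F C (W0 ⊔ Subgroup.zpowers (DR D r n)) k e) - α| ≤ ε) ∧
      ∀ ε : ℝ, 0 < ε → ∃ x₀ : ℕ, ∀ ρ K y : ℕ, 2 * ρ ≤ K → x₀ ≤ y →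
        ∀ N : ℕ, N < b ^ K → ∀ f : ℕ → ℕ, (∀ j, f j < b ∧ f j ≠ N / b ^ j % b) →
        ∀ Ex ⊆ powersetCard ρ (range K), (∀ S ∈ Ex, change b K N f S ≠ 0 ∧
          ∃ x : ℕ, y ≤ x ∧ Real.log x ≤ c * ρ ∧ ε * (Nat.primeCounting x : ℝ) <
            |(Sc F C (W0 ⊔ Subgroup.zpowers (DR D r (change b K N f S))) k x : ℝ) -
              α * (Nat.primeCounting x : ℝ)|) →
        (Ex.card : ℝ) ≤ (y : ℝ) ^ (-(A : ℝ)) * (K.choose ρ : ℝ) := by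
  obtain ⟨c, hc, h⟩ := few_dat b hb A
  refine ⟨c, hc, ?_⟩
  intro F _ _ C W0 k D r hC hW0 hk hr hrk
  obtain ⟨d, ⟨P1, hP1⟩, hgen⟩ := core2 F C W0 k D hC hW0 hk.ne' hr (hrk_of hrk)
  refine ⟨d.A, hgen, fun ε hε => ?_⟩
  obtain ⟨x₀, hx₀⟩ := h d (ε / 2) (by positivity)
  obtain ⟨x₁, hx₁⟩ := ((Filter.tendsto_atTop.mp (tendsto_natCast_atTop_atTop.comp
    Nat.tendsto_primeCounting) (2 * (P1 : ℝ) / ε))).exists_forall_of_atTop
  refine ⟨x₀ + x₁, fun ρ K y hρK hy N hN f hf Ex hEx hExb => ?_⟩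
  refine hx₀ ρ K y hρK (by omega) N hN f hf Ex hEx fun S hS => ?_
  obtain ⟨hn, x, hyx, hxr, hbad⟩ := hExb S hS
  refine ⟨x, hyx, hxr, ?_⟩
  have k1 := hP1 _ hn x
  have k2 := hx₁ x (by omega)
  simp only [Function.comp_apply] at k2
  rw [div_le_iff₀ hε] at k2
  have k3 : |(Sc F C (W0 ⊔ Subgroup.zpowers (DR D r (change b K N f S))) k x : ℝ) -
      d.A * (Nat.primeCounting x : ℝ)| ≤
      |(Sc F C (W0 ⊔ Subgroup.zpowers (DR D r (change b K N f S))) k x : ℝ) -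
        cntE d (change b K N f S) x| +
      |(cntE d (change b K N f S) x : ℝ) - d.A * (Nat.primeCounting x : ℝ)| := abs_sub_le _ _ _
  linarith

end Pool.Agent.Q22.LF
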