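import Pool.Agent.TH894.ND8
import Pool.Agent.H771R4.SE.Datum
import Pool.Agent.H386R2.Artin.SumH

set_option autoImplicit false

/-! The mean over the primes of the proportions of residues with the property of a datum. -/

namespace Pool.Agent.Q22.LF

open Finset Filter Topology
open Pool.Agent.H386R2.Artin (PP Good hL)
open Pool.Agent.H771R4.SE (Dat)
open Pool.Agent.TH894.ND (mu)

lemma mem_PP {x p : ℕ} : p ∈ PP x ↔ p ≤ x ∧ p.Prime := by
  unfold PP
  rw [mem_filter, mem_range, Nat.lt_succ_iff]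

lemma card_PP (x : ℕ) : (PP x).card = Nat.primeCounting x := by
  unfold PP
  rw [Nat.primeCounting, Nat.primeCounting', Nat.count_eq_card_filter_range]

/-- all nonprincipal characters have sum zero over the full set of residues -/
lemma good_full {p : ℕ} (hp : p.Prime) : Good (Ico 1 p) 0 p := by
  have : Fact p.Prime := ⟨hp⟩
  intro χ hχ
  have h1 : ∑ a : ZMod p, χ a = 0 := MulChar.sum_eq_zero_of_ne_one hχ
  have h2 : ∑ q ∈ range p, χ ((q : ℕ) : ZMod p) = ∑ a : ZMod p, χ a := by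
    refine sum_bij' (fun q _ => ((q : ℕ) : ZMod p)) (fun a _ => a.val) (fun q _ => mem_univ _)
      (fun a _ => mem_range.2 (ZMod.val_lt a)) ?_ ?_ ?_
    · intro q hq
      exact ZMod.val_natCast_of_lt (mem_range.1 hq)
    · intro a _
      exact ZMod.natCast_zmod_val a
    · intro q _
      rfl
  have h3 : ∑ q ∈ range p, χ ((q : ℕ) : ZMod p) = ∑ q ∈ Ico 1 p, χ ((q : ℕ) : ZMod p) := by
    rw [range_eq_Ico, sum_eq_sum_Ico_succ_bot hp.pos]
    have h4 : χ ((0 : ℕ) : ZMod p) = 0 := by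
      rw [Nat.cast_zero]
      exact MulChar.map_nonunit χ not_isUnit_zero
    rw [h4, zero_add]
  rw [← h3, h2, h1, norm_zero]

open Classical in
/-- one prime -/
lemma mu_close (d : Dat) {p : ℕ} (hp : p.Prime) (hp0 : d.p0 ≤ p) (L : ℕ) (hL2 : 2 ≤ L) :
    |mu p (d.Q p) - d.G p| ≤ 4 / p + 3 * hL L (p - 1) := by
  have hpr : (0 : ℝ) < p := by exact_mod_cast hp.pos
  have hE : ∀ q ∈ Ico 1 p, ((q : ℕ) : ZMod p) ≠ 0 := by
    intro q hq h0
    rw [mem_Ico] at hq
    rw [ZMod.natCast_eq_zero_iff] at h0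
    exact absurd (Nat.le_of_dvd (by omega) h0) (by omega)
  have h1 := d.loc p hp hp0 (Ico 1 p) 0 L hL2 hE le_rfl (good_full hp)
  rw [mul_zero, mul_zero, add_zero, add_zero] at h1
  have hcard : ((Ico 1 p).card : ℝ) = p - 1 := by
    rw [Nat.card_Ico, Nat.cast_sub hp.one_le, Nat.cast_one]
  rw [hcard] at h1
  obtain ⟨a, ha⟩ : ∃ a, a = (((Ico 1 p).filter (fun q : ℕ => d.Q p ((q : ℕ) : ZMod p))).card : ℝ) := ⟨_, rfl⟩
  have h1' : |a - (p - 1) * d.G p| ≤ 1 + 3 * ((p - 1) * hL L (p - 1)) := by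
    rw [ha]
    refine le_trans (le_of_eq ?_) h1
    congr!
  obtain ⟨e, he0, he1, he⟩ : ∃ e : ℝ, 0 ≤ e ∧ e ≤ 1 ∧
      (((range p).filter (fun q : ℕ => d.Q p ((q : ℕ) : ZMod p))).card : ℝ) = a + e := by
    have e1 : range p = insert 0 (Ico 1 p) := by
      ext q
      rw [mem_range, mem_insert, mem_Ico]
      have := hp.pos
      omega
    rw [e1, filter_insert]
    split_ifs with h
    · refine ⟨1, zero_le_one, le_rfl, ?_⟩
      rw [card_insert_of_notMem (by simp), ha]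
      push_cast
      rfl
    · refine ⟨0, le_rfl, zero_le_one, ?_⟩
      rw [ha, add_zero]
  have hmu : mu p (d.Q p) = (a + e) / p := by
    unfold mu
    rw [← he]
  have hG0 := d.G0 p
  have hG1 := d.G1 p
  have hh0 : 0 ≤ hL L (p - 1) := Pool.Agent.H771R4.SE.hL_nn L p
  rw [hmu]
  have e3 : (a + e) / p - d.G p = ((a - (p - 1) * d.G p) + (e - d.G p)) / p := by
    field_simp
    ring
  rw [e3, abs_div, abs_of_pos hpr, div_le_iff₀ hpr]
  have e4 : (4 / (p : ℝ) + 3 * hL L (p - 1)) * p = 4 + 3 * (p * hL L (p - 1)) := by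
    field_simp
  rw [e4]
  have h5 : |(a - (p - 1) * d.G p) + (e - d.G p)| ≤ |a - (p - 1) * d.G p| + |e - d.G p| := abs_add_le _ _
  have h6 : |e - d.G p| ≤ 2 := by
    rw [abs_le]
    constructor <;> linarith
  nlinarith

/-- the sum of the reciprocals of the primes is small -/
lemma recip_small (ε : ℝ) (hε : 0 < ε) : ∀ᶠ x : ℕ in atTop,
    ∑ p ∈ PP x, (1 : ℝ) / p ≤ ε * (Nat.primeCounting x : ℝ) := by
  have h0 : Tendsto (fun x : ℕ => (Nat.primeCounting x : ℝ)) atTop atTop :=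
    tendsto_natCast_atTop_atTop.comp Nat.tendsto_primeCounting
  obtain ⟨y, hy⟩ : ∃ y : ℕ, 2 / ε ≤ y := exists_nat_ge _
  have h1 := h0.eventually (eventually_ge_atTop (2 * (y : ℝ) / ε))
  filter_upwards [h1] with x hx
  have hπ : (0 : ℝ) ≤ (Nat.primeCounting x : ℝ) := Nat.cast_nonneg _
  have h2 : ∀ p ∈ PP x, (1 : ℝ) / p ≤ (if p < y then (1 : ℝ) else 0) + ε / 2 := by
    intro p hp
    have hpp := (mem_PP.1 hp).2
    have hp1 : (1 : ℝ) ≤ p := by exact_mod_cast hpp.one_le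
    split_ifs with h
    · have : (1 : ℝ) / p ≤ 1 := by rw [div_le_one (by linarith)]; exact hp1
      linarith
    · rw [zero_add, div_le_iff₀ (by linarith)]
      have h3 : (y : ℝ) ≤ p := by exact_mod_cast not_lt.1 h
      have h4 : 2 / ε ≤ p := hy.trans h3
      rw [div_le_iff₀ hε] at h4
      linarith
  refine (sum_le_sum h2).trans ?_
  rw [sum_add_distrib, sum_const, nsmul_eq_mul, card_PP, ← sum_filter, sum_const, nsmul_eq_mul, mul_one]
  have h5 : (((PP x).filter (fun p => p < y)).card : ℝ) ≤ y := by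
    have : ((PP x).filter (fun p => p < y)).card ≤ (range y).card :=
      card_le_card fun p hp => mem_range.2 (mem_filter.1 hp).2
    rw [card_range] at this
    exact_mod_cast this
  rw [div_le_iff₀ hε] at hx
  linarith

/-- the mean of the proportions -/
theorem mean_dat (d : Dat) (ε : ℝ) (hε : 0 < ε) : ∃ x₀ : ℕ, ∀ x : ℕ, x₀ ≤ x →
    |∑ p ∈ PP x, mu p (d.Q p) - d.A * (Nat.primeCounting x : ℝ)| ≤ ε * (Nat.primeCounting x : ℝ) := by
  classical
  obtain ⟨C, hC, hsum⟩ := Pool.Agent.H386R2.Artin.sumH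
  obtain ⟨L, hL1⟩ : ∃ L : ℕ, 12 * C / ε + 2 ≤ L := exists_nat_ge _
  have hL2 : 2 ≤ L := by
    have h1 : (0 : ℝ) ≤ 12 * C / ε := by positivity
    have h2 : (2 : ℝ) ≤ L := by linarith
    exact_mod_cast h2
  obtain ⟨x₁, hx₁⟩ := hsum L (by omega)
  have hlim := d.lim
  have h0 : Tendsto (fun x : ℕ => (Nat.primeCounting x : ℝ)) atTop atTop :=
    tendsto_natCast_atTop_atTop.comp Nat.tendsto_primeCounting
  have ev1 : ∀ᶠ x : ℕ in atTop, |(∑ p ∈ PP x, d.G p) / (Nat.primeCounting x : ℝ) - d.A| < ε / 4 := by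
    have := (Metric.tendsto_atTop.1 hlim) (ε / 4) (by positivity)
    obtain ⟨N, hN⟩ := this
    filter_upwards [eventually_ge_atTop N] with x hx
    have := hN x hx
    rwa [Real.dist_eq] at this
  have ev2 := recip_small (ε / 16) (by positivity)
  have ev3 := h0.eventually (eventually_ge_atTop (max 1 (12 * (d.p0 : ℝ) / ε)))
  obtain ⟨x₂, hx₂⟩ := eventually_atTop.1 ((ev1.and ev2).and ev3)
  refine ⟨x₁ + x₂, fun x hx => ?_⟩
  obtain ⟨⟨k1, k2⟩, k3⟩ := hx₂ x (by omega)
  have k4 := hx₁ x (by omega)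
  obtain ⟨P, hP⟩ : ∃ P, P = (Nat.primeCounting x : ℝ) := ⟨_, rfl⟩
  rw [← hP] at k1 k2 k3 k4 ⊢
  have hP1 : 1 ≤ P := (le_max_left _ _).trans k3
  have hP0 : 0 < P := by linarith
  have hp0 : 3 * (d.p0 : ℝ) ≤ ε / 4 * P := by
    have := (le_max_right _ _).trans k3
    rw [div_le_iff₀ hε] at this
    linarith
  have hG : |∑ p ∈ PP x, d.G p - d.A * P| ≤ ε / 4 * P := by
    have e1 : (∑ p ∈ PP x, d.G p) / P - d.A = (∑ p ∈ PP x, d.G p - d.A * P) / P := by
      field_simp
    rw [e1, abs_div, abs_of_pos hP0, div_lt_iff₀ hP0] at k1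
    exact k1.le
  have hterm : ∀ p ∈ PP x, |mu p (d.Q p) - d.G p| ≤
      (if p < d.p0 then (3 : ℝ) else 0) + (4 * (1 / p) + 3 * hL L (p - 1)) := by
    intro p hp
    have hpp := (mem_PP.1 hp).2
    have hpr : (0 : ℝ) < p := by exact_mod_cast hpp.pos
    have hh0 : 0 ≤ hL L (p - 1) := Pool.Agent.H771R4.SE.hL_nn L p
    split_ifs with h
    · have m0 := Pool.Agent.TH894.ND.mu_nonneg p (d.Q p)
      have m1 := Pool.Agent.TH894.ND.mu_le_one p (d.Q p)
      have g0 := d.G0 p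
      have g1 := d.G1 p
      have h2 : |mu p (d.Q p) - d.G p| ≤ 3 := by
        rw [abs_le]
        constructor <;> linarith
      have h3 : 0 ≤ 4 * (1 / (p : ℝ)) := by positivity
      linarith
    · have := mu_close d hpp (not_lt.1 h) L hL2
      rw [zero_add, mul_one_div]
      exact this
  have hsum2 : |∑ p ∈ PP x, mu p (d.Q p) - ∑ p ∈ PP x, d.G p| ≤
      3 * (d.p0 : ℝ) + (4 * (ε / 16 * P) + 3 * (C / L * P)) := by
    rw [← sum_sub_distrib]
    refine (abs_sum_le_sum_abs _ _).trans ((sum_le_sum hterm).trans ?_)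
    rw [sum_add_distrib, sum_add_distrib, ← mul_sum, ← mul_sum, ← sum_filter, sum_const, nsmul_eq_mul]
    have h5 : (((PP x).filter (fun p => p < d.p0)).card : ℝ) ≤ d.p0 := by
      have : ((PP x).filter (fun p => p < d.p0)).card ≤ (range d.p0).card :=
        card_le_card fun p hp => mem_range.2 (mem_filter.1 hp).2
      rw [card_range] at this
      exact_mod_cast this
    have h6 : (((PP x).filter (fun p => p < d.p0)).card : ℝ) * 3 ≤ 3 * d.p0 := by linarith
    have h7 : 4 * ∑ p ∈ PP x, (1 : ℝ) / p ≤ 4 * (ε / 16 * P) := by linarith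
    have h8 : 3 * ∑ p ∈ PP x, hL L (p - 1) ≤ 3 * (C / L * P) := by linarith
    linarith
  have hCL : 3 * (C / L * P) ≤ ε / 4 * P := by
    have hL0 : (0 : ℝ) < L := by
      have : (2 : ℝ) ≤ L := by exact_mod_cast hL2
      linarith
    have h9 : 12 * C / ε ≤ L := by linarith
    rw [div_le_iff₀ hε] at h9
    have h10 : 3 * (C / L) ≤ ε / 4 := by
      rw [← mul_div_assoc, div_le_iff₀ hL0]
      linarith
    calc 3 * (C / L * P) = 3 * (C / L) * P := by ring
      _ ≤ ε / 4 * P := mul_le_mul_of_nonneg_right h10 hP0.le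
  have hfin : |∑ p ∈ PP x, mu p (d.Q p) - d.A * P| ≤
      |∑ p ∈ PP x, mu p (d.Q p) - ∑ p ∈ PP x, d.G p| + |∑ p ∈ PP x, d.G p - d.A * P| := abs_sub_le _ _ _
  nlinarith

end Pool.Agent.Q22.LF
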